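import Mathlib

/-!
# Infinitely many `n` with `n - 2 ^ k` squarefree for every `2 ^ k < n`

Take `z` large, `L = 16 z`, `Q` the product of the odd primes up to `z`, so `Q ≤ 4 ^ z = 2 ^ (2 z)`,
and consider the numbers `n = Q (4 t + r)` with `0 ≤ t < T = 2 ^ (13 z)`, where `r ∈ {1, 3}` is
such that `Q r ≡ 3 (mod 4)`.  All of them are at most `2 ^ L`, no `n - 2 ^ k` is divisible by `4`
or by an odd prime `p ≤ z`, and for `k < L` and a prime `p > z` the number of the `t < T` with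
`p ^ 2 ∣ n - 2 ^ k` is at most `T / p ^ 2 + 1`.  As `∑_{p > z} 1 / p ^ 2 = o (1 / z)` (Chebyshev),
fewer than `T` of the `t` are excluded.
-/

namespace Pool.Agent.Results.MP_fcd74d_nt.InfinitelyManyGood

open Finset Filter

/-- Chebyshev: `π (n) ≤ ε n` for large `n`. -/
theorem pi_le {ε : ℝ} (hε : 0 < ε) : ∃ z₀ : ℕ, ∀ n : ℕ, z₀ ≤ n →
    (Nat.primeCounting n : ℝ) ≤ ε * n := by
  have h1 := Chebyshev.eventually_primeCounting_le (ε := 1) one_pos
  have h2 : Tendsto (fun n : ℕ => (n : ℝ)) atTop atTop := tendsto_natCast_atTop_atTop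
  have h3 := h2.eventually h1
  have h4 : ∀ᶠ n : ℕ in atTop, (Real.log 4 + 1) / ε ≤ Real.log (n : ℝ) :=
    (Real.tendsto_log_atTop.comp h2).eventually_ge_atTop _
  have h5 : ∀ᶠ n : ℕ in atTop, 2 ≤ n := eventually_ge_atTop 2
  obtain ⟨z₀, hz₀⟩ := eventually_atTop.1 (h3.and (h4.and h5))
  refine ⟨z₀, fun n hn => ?_⟩
  obtain ⟨ha, hb, hc⟩ := hz₀ n hn
  have hlog : 0 < Real.log (n : ℝ) := Real.log_pos (by exact_mod_cast hc)
  rw [Nat.floor_natCast] at ha
  refine ha.trans ?_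
  rw [div_le_iff₀ hlog]
  rw [div_le_iff₀ hε] at hb
  have hn0 : (0 : ℝ) ≤ n := Nat.cast_nonneg n
  nlinarith

/-- `∑_{z < p ≤ Y} 1 / p ^ 2`. -/
noncomputable def S (z Y : ℕ) : ℝ :=
  ∑ p ∈ (Ioc z Y).filter Nat.Prime, (1 : ℝ) / (p : ℝ) ^ 2

theorem S_succ {z Y : ℕ} (h : z ≤ Y) :
    S z (Y + 1) = S z Y +
      ((Nat.primeCounting (Y + 1) : ℝ) - Nat.primeCounting Y) / ((Y : ℝ) + 1) ^ 2 := by
  have hI : Ioc z (Y + 1) = insert (Y + 1) (Ioc z Y) := by
    ext x; simp only [mem_Ioc, mem_insert]; omega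
  have hnot : Y + 1 ∉ (Ioc z Y).filter Nat.Prime := by simp
  unfold S
  rw [hI, filter_insert]
  by_cases hp : (Y + 1).Prime
  · have hc : Nat.primeCounting (Y + 1) = Nat.primeCounting Y + 1 := by
      unfold Nat.primeCounting Nat.primeCounting'
      rw [Nat.count_succ, if_pos hp]
    rw [if_pos hp, sum_insert hnot, hc]
    push_cast
    ring
  · have hc : Nat.primeCounting (Y + 1) = Nat.primeCounting Y := by
      unfold Nat.primeCounting Nat.primeCounting'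
      rw [Nat.count_succ, if_neg hp, add_zero]
    rw [if_neg hp, hc]
    simp

theorem S_bound {ε : ℝ} {z : ℕ} (hz : 1 ≤ z)
    (h : ∀ n : ℕ, z ≤ n → (Nat.primeCounting n : ℝ) ≤ ε * n) (Y : ℕ) (hY : z ≤ Y) :
    S z Y ≤ Nat.primeCounting Y / (Y : ℝ) ^ 2 + 2 * ε * (1 / (z : ℝ) - 1 / (Y : ℝ)) := by
  induction Y, hY using Nat.le_induction with
  | base =>
    have : S z z = 0 := by simp [S]
    rw [this, sub_self, mul_zero, add_zero]
    positivity
  | succ Y hY ih =>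
    rw [S_succ hY]
    have hY0 : (0 : ℝ) < Y := by exact_mod_cast (lt_of_lt_of_le hz hY)
    have hpi := h Y hY
    have key : (Nat.primeCounting Y : ℝ) * (1 / (Y : ℝ) ^ 2 - 1 / ((Y : ℝ) + 1) ^ 2)
        ≤ 2 * ε * (1 / (Y : ℝ) - 1 / ((Y : ℝ) + 1)) := by
      have hε : 0 ≤ ε := by
        by_contra hcon
        push Not at hcon
        have : (0 : ℝ) ≤ Nat.primeCounting Y := Nat.cast_nonneg _
        nlinarith
      have e1 : (1 / (Y : ℝ) ^ 2 - 1 / ((Y : ℝ) + 1) ^ 2)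
          = (2 * Y + 1) / ((Y : ℝ) ^ 2 * ((Y : ℝ) + 1) ^ 2) := by
        field_simp; ring
      have e2 : (1 / (Y : ℝ) - 1 / ((Y : ℝ) + 1)) = 1 / ((Y : ℝ) * ((Y : ℝ) + 1)) := by
        field_simp; ring
      have e0 : 0 ≤ (1 / (Y : ℝ) ^ 2 - 1 / ((Y : ℝ) + 1) ^ 2) := by
        rw [e1]; positivity
      calc (Nat.primeCounting Y : ℝ) * (1 / (Y : ℝ) ^ 2 - 1 / ((Y : ℝ) + 1) ^ 2)
          ≤ (ε * Y) * (1 / (Y : ℝ) ^ 2 - 1 / ((Y : ℝ) + 1) ^ 2) :=
            mul_le_mul_of_nonneg_right hpi e0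
        _ = ε * ((2 * Y + 1) / ((Y : ℝ) * ((Y : ℝ) + 1) ^ 2)) := by
            rw [e1]; field_simp
        _ ≤ ε * (2 / ((Y : ℝ) * ((Y : ℝ) + 1))) := by
            refine mul_le_mul_of_nonneg_left ?_ hε
            rw [div_le_div_iff₀ (by positivity) (by positivity)]
            nlinarith [mul_pos hY0 hY0, mul_pos (mul_pos hY0 hY0) hY0]
        _ = 2 * ε * (1 / (Y : ℝ) - 1 / ((Y : ℝ) + 1)) := by rw [e2]; ring
    have e3 : ((Nat.primeCounting (Y + 1) : ℝ) - Nat.primeCounting Y) / ((Y : ℝ) + 1) ^ 2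
        = (Nat.primeCounting (Y + 1) : ℝ) / ((Y : ℝ) + 1) ^ 2
          - (Nat.primeCounting Y : ℝ) * (1 / ((Y : ℝ) + 1) ^ 2) := by ring
    have e4 : (Nat.primeCounting Y : ℝ) * (1 / (Y : ℝ) ^ 2 - 1 / ((Y : ℝ) + 1) ^ 2)
        = (Nat.primeCounting Y : ℝ) / (Y : ℝ) ^ 2
          - (Nat.primeCounting Y : ℝ) * (1 / ((Y : ℝ) + 1) ^ 2) := by ring
    rw [e3]
    push_cast
    linarith

theorem S_le {ε : ℝ} (hε : 0 ≤ ε) {z : ℕ} (hz : 1 ≤ z)
    (h : ∀ n : ℕ, z ≤ n → (Nat.primeCounting n : ℝ) ≤ ε * n) (Y : ℕ) (hY : z ≤ Y) :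
    S z Y ≤ 2 * ε / z := by
  have h1 := S_bound hz h Y hY
  have hY0 : (0 : ℝ) < Y := by exact_mod_cast (lt_of_lt_of_le hz hY)
  have h2 : (Nat.primeCounting Y : ℝ) / (Y : ℝ) ^ 2 ≤ ε / Y := by
    rw [div_le_div_iff₀ (by positivity) hY0]
    nlinarith [h Y hY, mul_pos hY0 hY0]
  have h3 : 2 * ε * (1 / (z : ℝ) - 1 / (Y : ℝ)) = 2 * ε / z - 2 * (ε / Y) := by ring
  have h4 : 0 ≤ ε / Y := by positivity
  linarith

/-- A set of naturals below `T`, all congruent modulo `m`, has at most `T / m + 1` elements. -/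
theorem card_le_of_modEq {T m : ℕ} (A : Finset ℕ) (hA : ∀ t ∈ A, t < T)
    (hmod : ∀ s ∈ A, ∀ t ∈ A, s % m = t % m) : A.card ≤ T / m + 1 := by
  have h1 : A.card ≤ (range (T / m + 1)).card := by
    refine card_le_card_of_injOn (fun t => t / m) ?_ ?_
    · intro t ht
      have := hA t (by simpa using ht)
      simp only [coe_range, Set.mem_Iio]
      exact Nat.lt_succ_of_le (Nat.div_le_div_right this.le)
    · intro s hs t ht hst
      have h2 := hmod s (by simpa using hs) t (by simpa using ht)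
      simp only at hst
      rw [← Nat.div_add_mod s m, ← Nat.div_add_mod t m, hst, h2]
  simpa using h1

theorem card_bad_le {p : ℕ} (hp : p.Prime) {Q : ℕ} (hpQ : ¬ p ∣ Q) (hp2 : p ≠ 2) (r T : ℕ)
    (c : ℤ) :
    ((range T).filter (fun t : ℕ => ((p : ℤ) ^ 2) ∣ ((Q * (4 * t + r) : ℕ) : ℤ) - c)).card
      ≤ T / p ^ 2 + 1 := by
  refine card_le_of_modEq _ (fun t ht => by simpa using (mem_filter.1 ht).1) ?_
  intro s hs t ht
  have h1 := (mem_filter.1 hs).2
  have h2 := (mem_filter.1 ht).2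
  have h3 : ((p : ℤ) ^ 2) ∣ (4 * Q : ℤ) * ((s : ℤ) - t) := by
    have h := dvd_sub h1 h2
    have e : ((Q * (4 * s + r) : ℕ) : ℤ) - c - (((Q * (4 * t + r) : ℕ) : ℤ) - c)
        = (4 * Q : ℤ) * ((s : ℤ) - t) := by push_cast; ring
    rwa [e] at h
  have hcop : IsCoprime ((p : ℤ) ^ 2) (4 * Q : ℤ) := by
    apply IsCoprime.pow_left
    have h4 : Nat.Coprime p (4 * Q) := by
      apply Nat.Coprime.mul_right
      · rw [show (4 : ℕ) = 2 ^ 2 by norm_num]
        apply Nat.Coprime.pow_right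
        exact (Nat.coprime_primes hp Nat.prime_two).2 hp2
      · exact (Nat.Prime.coprime_iff_not_dvd hp).2 hpQ
    have h5 := Nat.isCoprime_iff_coprime.2 h4
    simpa using h5
  have h4 : ((p : ℤ) ^ 2) ∣ ((s : ℤ) - t) := hcop.dvd_of_dvd_mul_left h3
  have h5 : (s : ℤ) ≡ t [ZMOD ((p ^ 2 : ℕ) : ℤ)] := by
    have := (Int.modEq_iff_dvd (a := (t : ℤ)) (b := s) (n := ((p ^ 2 : ℕ) : ℤ))).2
      (by simpa using h4)
    exact this.symm
  exact (Int.natCast_modEq_iff.1 h5)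

/-- the product of the odd primes up to `z` -/
def oddPrimorial (z : ℕ) : ℕ := ∏ p ∈ (range (z + 1)).filter (fun p => p.Prime ∧ p ≠ 2), p

theorem oddPrimorial_le (z : ℕ) : oddPrimorial z ≤ 4 ^ z := by
  refine le_trans ?_ (primorial_le_four_pow z)
  unfold oddPrimorial primorial
  refine prod_le_prod_of_subset_of_one_le' ?_ ?_
  · intro p hp
    simp only [mem_filter, mem_range] at hp ⊢
    exact ⟨hp.1, hp.2.1⟩
  · intro p hp _
    exact (mem_filter.1 hp).2.one_lt.le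

theorem oddPrimorial_odd (z : ℕ) : Odd (oddPrimorial z) := by
  unfold oddPrimorial
  refine prod_induction _ Odd (fun a b ha hb => ha.mul hb) odd_one ?_
  intro p hp
  have := (mem_filter.1 hp).2
  exact this.1.odd_of_ne_two this.2

theorem dvd_oddPrimorial {z p : ℕ} (hp : p.Prime) (h2 : p ≠ 2) (hz : p ≤ z) :
    p ∣ oddPrimorial z := by
  unfold oddPrimorial
  exact dvd_prod_of_mem _ (by simp [hp, h2]; omega)

theorem not_dvd_oddPrimorial {z p : ℕ} (hp : p.Prime) (hz : z < p) :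
    ¬ p ∣ oddPrimorial z := by
  unfold oddPrimorial
  rw [Prime.dvd_finsetProd_iff hp.prime]
  rintro ⟨q, hq, hpq⟩
  simp only [mem_filter, mem_range] at hq
  have := (Nat.prime_dvd_prime_iff_eq hp hq.2.1).1 hpq
  omega

/-- the main counting step -/
theorem exists_good {z : ℕ} (hz : 4 ≤ z)
    (h : ∀ n : ℕ, z ≤ n → (Nat.primeCounting n : ℝ) ≤ (1 / 128) * n) :
    ∃ n : ℕ, oddPrimorial z ≤ n ∧ ∀ k : ℕ, 2 ^ k < n → Squarefree (n - 2 ^ k) := by
  set Q := oddPrimorial z with hQ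
  have hQodd : Odd Q := oddPrimorial_odd z
  have hQle : Q ≤ 2 ^ (2 * z) := by
    rw [pow_mul]; exact oddPrimorial_le z
  -- the residue `r`
  obtain ⟨r, hr3, hr⟩ : ∃ r : ℕ, r ≤ 3 ∧ 1 ≤ r ∧ (Q * r) % 4 = 3 := by
    obtain ⟨m, hm⟩ := hQodd
    rcases Nat.even_or_odd m with ⟨j, hj⟩ | ⟨j, hj⟩
    · exact ⟨3, le_rfl, by norm_num, by rw [hm, hj]; omega⟩
    · exact ⟨1, by norm_num, le_rfl, by rw [hm, hj]; omega⟩
  obtain ⟨hr1, hr4⟩ := hr
  set T := 2 ^ (13 * z) with hT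
  set Y := 2 ^ (8 * z) with hY
  set P := (Ioc z Y).filter Nat.Prime with hP
  let B : ℕ → ℕ → Finset ℕ := fun k p =>
    (range T).filter (fun t : ℕ => ((p : ℤ) ^ 2) ∣ ((Q * (4 * t + r) : ℕ) : ℤ) - 2 ^ k)
  let Bad : Finset ℕ := (range (16 * z)).biUnion (fun k => P.biUnion (fun p => B k p))
  have hzY : z ≤ Y := by
    calc z ≤ 2 ^ z := (Nat.lt_two_pow_self).le
      _ ≤ 2 ^ (8 * z) := Nat.pow_le_pow_right (by norm_num) (by omega)
  have hBcard : ∀ k, ∀ p ∈ P, ((B k p).card : ℝ) ≤ T * (1 / (p : ℝ) ^ 2) + 1 := by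
    intro k p hp
    simp only [hP, mem_filter, mem_Ioc] at hp
    have hpp := hp.2
    have h1 := card_bad_le hpp (not_dvd_oddPrimorial hpp hp.1.1) (by omega) r T (2 ^ k)
    have h2 : ((T / p ^ 2 : ℕ) : ℝ) ≤ (T : ℝ) / ((p ^ 2 : ℕ) : ℝ) := Nat.cast_div_le
    have h1' : (B k p).card ≤ T / p ^ 2 + 1 := h1
    have h3 : ((B k p).card : ℝ) ≤ ((T / p ^ 2 + 1 : ℕ) : ℝ) := Nat.cast_le.2 h1'
    refine h3.trans ?_
    push_cast at h2 ⊢
    rw [mul_one_div]
    linarith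
  have hPcard : (P.card : ℝ) ≤ Y := by
    have : P.card ≤ Y := by
      calc P.card ≤ (Ioc z Y).card := card_filter_le _ _
        _ = Y - z := Nat.card_Ioc z Y
        _ ≤ Y := Nat.sub_le _ _
    exact_mod_cast this
  have hS : S z Y ≤ 2 * (1 / 128) / z := S_le (by norm_num) (by omega) h Y hzY
  have hz0 : (0 : ℝ) < z := by exact_mod_cast (by omega : 0 < z)
  have hBad : (Bad.card : ℝ) < T := by
    have h1 : (Bad.card : ℝ) ≤ ∑ k ∈ range (16 * z), ∑ p ∈ P, ((B k p).card : ℝ) := by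
      have h2 : Bad.card ≤ ∑ k ∈ range (16 * z), ∑ p ∈ P, (B k p).card := by
        refine card_biUnion_le.trans ?_
        exact sum_le_sum fun k _ => card_biUnion_le
      exact_mod_cast h2
    have h2 : ∑ k ∈ range (16 * z), ∑ p ∈ P, ((B k p).card : ℝ)
        ≤ ∑ k ∈ range (16 * z), ((T : ℝ) * S z Y + Y) := by
      refine sum_le_sum fun k _ => ?_
      calc ∑ p ∈ P, ((B k p).card : ℝ) ≤ ∑ p ∈ P, ((T : ℝ) * (1 / (p : ℝ) ^ 2) + 1) :=
            sum_le_sum fun p hp => hBcard k p hp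
        _ = T * S z Y + P.card := by
            rw [sum_add_distrib, ← mul_sum]
            simp [S, hP]
        _ ≤ T * S z Y + Y := by linarith
    have h3 : ∑ k ∈ range (16 * z), ((T : ℝ) * S z Y + Y)
        = 16 * z * ((T : ℝ) * S z Y + Y) := by
      rw [sum_const, card_range, nsmul_eq_mul]; push_cast; ring
    have h4 : (16 : ℝ) * z * ((T : ℝ) * S z Y) ≤ T / 4 := by
      have hT0 : (0 : ℝ) ≤ T := Nat.cast_nonneg _
      calc (16 : ℝ) * z * ((T : ℝ) * S z Y) ≤ 16 * z * (T * (2 * (1 / 128) / z)) := by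
            gcongr
        _ = T / 4 := by field_simp; ring
    have h5 : (16 : ℝ) * z * Y < T / 2 := by
      have h6 : 2 * (16 * z * Y) < T := by
        have e1 : z < 2 ^ z := Nat.lt_two_pow_self
        have e2 : (2 : ℕ) ^ (13 * z) = 2 ^ z * 2 ^ (4 * z) * 2 ^ (8 * z) := by
          rw [← pow_add, ← pow_add]; congr 1; ring
        have e3 : (32 : ℕ) ≤ 2 ^ (4 * z) := by
          calc (32 : ℕ) = 2 ^ 5 := by norm_num
            _ ≤ 2 ^ (4 * z) := Nat.pow_le_pow_right (by norm_num) (by omega)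
        rw [hT, e2, hY]
        have hpos : 0 < 2 ^ (8 * z) := by positivity
        calc 2 * (16 * z * 2 ^ (8 * z)) = z * 32 * 2 ^ (8 * z) := by ring
          _ < 2 ^ z * 32 * 2 ^ (8 * z) := by
              have : z * 32 < 2 ^ z * 32 := by omega
              exact Nat.mul_lt_mul_of_pos_right this hpos
          _ ≤ 2 ^ z * 2 ^ (4 * z) * 2 ^ (8 * z) := by gcongr
      have h7 : (2 : ℝ) * (16 * z * Y) < T := by exact_mod_cast h6
      linarith
    have hT0 : (0 : ℝ) < T := by positivity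
    calc (Bad.card : ℝ) ≤ 16 * z * ((T : ℝ) * S z Y + Y) := by rw [← h3]; exact h1.trans h2
      _ = 16 * z * ((T : ℝ) * S z Y) + 16 * z * Y := by ring
      _ < T / 4 + T / 2 := by linarith
      _ < T := by linarith
  have hBadNat : Bad.card < (range T).card := by
    rw [card_range]; exact_mod_cast hBad
  obtain ⟨t, htT, htBad⟩ := exists_mem_notMem_of_card_lt_card hBadNat
  rw [mem_range] at htT
  set n := Q * (4 * t + r) with hn
  have hQpos : 0 < Q := hQodd.pos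
  have hnQ : Q ≤ n := by
    rw [hn]; exact Nat.le_mul_of_pos_right Q (by omega)
  have hn4 : n % 4 = 3 := by
    have e : n = 4 * (Q * t) + Q * r := by rw [hn]; ring
    omega
  have hnle : n ≤ 2 ^ (16 * z) := by
    have e1 : 4 * t + r ≤ 4 * T := by omega
    calc n ≤ 2 ^ (2 * z) * (4 * T) := Nat.mul_le_mul hQle e1
      _ = 2 ^ (15 * z + 2) := by
          rw [hT, show (4 : ℕ) = 2 ^ 2 by norm_num, ← pow_add, ← pow_add]; congr 1; ring
      _ ≤ 2 ^ (16 * z) := Nat.pow_le_pow_right (by norm_num) (by omega)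
  refine ⟨n, hnQ, fun k hk => ?_⟩
  rw [Nat.squarefree_iff_prime_squarefree]
  intro p hp hdvd
  have hkL : k < 16 * z := by
    have : 2 ^ k < 2 ^ (16 * z) := lt_of_lt_of_le hk hnle
    exact (Nat.pow_lt_pow_iff_right (by norm_num)).1 this
  by_cases hp2 : p = 2
  · subst hp2
    rcases Nat.eq_zero_or_pos k with hk0 | hkpos
    · subst hk0
      have : 4 ∣ n - 1 := by simpa using hdvd
      omega
    · obtain ⟨j, rfl⟩ : ∃ j, k = j + 1 := ⟨k - 1, by omega⟩
      have h1 : 2 ∣ n - 2 ^ (j + 1) := dvd_trans (by norm_num) hdvd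
      have h2 : 2 ∣ 2 ^ (j + 1) := dvd_pow_self 2 (by omega)
      have h3 : 2 ∣ n := by
        have := (Nat.dvd_add_right h2).2 h1
        rwa [Nat.add_sub_cancel' hk.le] at this
      omega
  · by_cases hpz : p ≤ z
    · have h1 : p ∣ n := dvd_trans (dvd_oddPrimorial hp hp2 hpz) (Dvd.intro _ rfl)
      have h2 : p ∣ n - 2 ^ k := dvd_trans (Dvd.intro _ rfl) hdvd
      have h3 : p ∣ 2 ^ k := by
        have := (Nat.dvd_sub_iff_right hk.le h1).1 h2
        exact this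
      exact hp2 ((Nat.prime_dvd_prime_iff_eq hp Nat.prime_two).1 (hp.dvd_of_dvd_pow h3))
    · push Not at hpz
      apply htBad
      have hpos : 0 < n - 2 ^ k := Nat.sub_pos_of_lt hk
      have hpp : p * p ≤ n - 2 ^ k := Nat.le_of_dvd hpos hdvd
      have hpY : p ≤ Y := by
        by_contra hcon
        push Not at hcon
        have h1 : Y * Y < p * p := Nat.mul_lt_mul'' hcon hcon
        have h2 : Y * Y = 2 ^ (16 * z) := by rw [hY, ← pow_add]; congr 1; ring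
        have h3 : p * p ≤ Y * Y := hpp.trans ((Nat.sub_le _ _).trans (hnle.trans h2.ge))
        exact absurd h1 (not_lt.2 h3)
      simp only [Bad, mem_biUnion, B, mem_filter, mem_range]
      refine ⟨k, hkL, p, ?_, htT, ?_⟩
      · simp [hP, hpz, hpY, hp]
      · have h1 : ((p * p : ℕ) : ℤ) ∣ ((n - 2 ^ k : ℕ) : ℤ) := Int.natCast_dvd_natCast.2 hdvd
        rw [Nat.cast_sub hk.le] at h1
        rw [← hn, sq]
        push_cast at h1 ⊢
        exact h1

/-- There are infinitely many `n` such that `n - 2 ^ k` is squarefree for every `k ≥ 0` with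
`2 ^ k < n`. -/
theorem result :
    Set.Infinite {n : ℕ | 3 ≤ n ∧ ∀ k : ℕ, 2 ^ k < n → Squarefree (n - 2 ^ k)} := by
  rw [Set.infinite_iff_exists_gt]
  intro a
  obtain ⟨z₀, hz₀⟩ := pi_le (ε := 1 / 128) (by norm_num)
  obtain ⟨q, hq1, hq⟩ := Nat.exists_infinite_primes (a + z₀ + 4)
  obtain ⟨n, hn, hgood⟩ := exists_good (z := q) (by omega)
    (fun n hn => hz₀ n (by omega))
  have h1 : q ≤ oddPrimorial q :=
    Nat.le_of_dvd (oddPrimorial_odd q).pos (dvd_oddPrimorial hq (by omega) le_rfl)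
  exact ⟨n, ⟨by omega, hgood⟩, by omega⟩

end Pool.Agent.Results.MP_fcd74d_nt.InfinitelyManyGood
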